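import Pool.Agent.U79.GY.Stm
import Pool.Agent.U587.GX.ASY

/-!
# Project GY (helper79), package ASY (helper464): the asymptotic analysis

Port of `Pool/Agent/U587/GX/ASY.lean` (helper587).
-/

set_option autoImplicit false
set_option linter.unusedVariables false

open scoped Classical

namespace Pool.Agent.U464.GY

open Finset hiding ext
open Filter
open Pool.Agent.Y703.CX (sm la jj XX eL zz kk S_SIE logX_eq rpow_eL ev_eL one_le_exp
  kk_ge kk_le X_pos one_add_log lin_le kap zz_pos kap_nonneg kap_pow kap_le)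
open Pool.Agent.Y703.CQ (Sml sml_of sml_add sml_rpow)
open Pool.Agent.U115.GD (S_MER S_CHE)
open Pool.Agent.U79.GX (Cr)
open Pool.Agent.U79.GY
open Pool.Agent.U587.GX (sml_mono sml_cmul kK hH nN kK_ge kK_le kK_le' hH_ge hH_le hH_pos nN_le
  two_pow_le pow_kK_le main_sml)
open Pool.Agent.Y362.CQ (moment)
open Pool.Agent.Y495.CX.Few (PN mert log_small loglog_zz le_of_mem_prod eL_tendsto)

/-! ### the class -/

theorem nk_le (G : Cfg) (f : ℕ → ZMod 2) (S : Finset ℕ) : nk G f S ≤ 2 ^ S.card := by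
  unfold nk nkP
  have h1 : Nat.card (S → ZMod 2) = 2 ^ S.card := by
    rw [Nat.card_eq_fintype_card, Fintype.card_fun, ZMod.card, Fintype.card_coe]
  rw [← h1]
  refine Nat.card_le_card_of_injective (fun x (p : S) => x.1 p) fun x y h => ?_
  refine Subtype.ext (funext fun p => ?_)
  by_cases hp : p ∈ S
  · exact congrFun h ⟨p, hp⟩
  · rw [x.2.1 p fun h => hp h.1, y.2.1 p fun h => hp h.1]

theorem SS_mem {G : Cfg} {X : ℕ} {S : Finset ℕ} (h : S ∈ SS G X) :
    (∀ p ∈ S, Sp G p ∨ In G p) ∧ ∏ p ∈ S, p ≤ X := by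
  unfold SS at h
  rw [mem_filter] at h
  exact ⟨h.2.1, h.2.2⟩

theorem pr_of {G : Cfg} {p : ℕ} (h : Sp G p ∨ In G p) : p.Prime := h.elim (fun h => h.1) fun h => h.1

theorem dl_pos {G : Cfg} (hO : Ok G) : 0 < dl G := by
  have h1 : (0 : ℝ) < (Nat.totient G.Q : ℝ) := by exact_mod_cast Nat.totient_pos.2 hO.q0
  have h2 : (0 : ℝ) < (G.A.card : ℝ) := by exact_mod_cast hO.hAn.card_pos
  have h3 : (0 : ℝ) < (G.B.card : ℝ) := by exact_mod_cast hO.hBn.card_pos
  unfold dl da db
  positivity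

theorem nkr_le (G : Cfg) (f : ℕ → ZMod 2) (r : ℕ) (S : Finset ℕ) :
    (nk G f S : ℝ) ^ r ≤ ((2 : ℝ) ^ r) ^ S.card := by
  have h : (nk G f S : ℝ) ≤ 2 ^ S.card := by exact_mod_cast nk_le G f S
  calc (nk G f S : ℝ) ^ r ≤ ((2 : ℝ) ^ S.card) ^ r := by gcongr
    _ = _ := by rw [← pow_mul, ← pow_mul, mul_comm]

theorem nkr_le_of {G : Cfg} (f : ℕ → ZMod 2) (r : ℕ) {S : Finset ℕ} {k : ℕ} (h : S.card ≤ k) :
    (nk G f S : ℝ) ^ r ≤ ((2 : ℝ) ^ r) ^ k :=
  (nkr_le G f r S).trans (pow_le_pow_right₀ (one_le_pow₀ (by norm_num)) h)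

theorem mem_pr {G : Cfg} {X : ℕ} : ∀ S ∈ SS G X, (∀ p ∈ S, p.Prime) ∧ ∏ p ∈ S, p ≤ X :=
  fun _ hS => ⟨fun p hp => pr_of ((SS_mem hS).1 p hp), (SS_mem hS).2⟩

/-! ### the sets outside the boxes -/

/-- sets with many primes -/
theorem many_sml {G : Cfg} {t : ℝ} (ht : t < 1) (f : ℕ → ZMod 2) (r : ℕ) {K : ℝ}
    (hK : 2 * ((2 : ℝ) ^ (r + 1) + 1) ≤ K) :
    Sml t fun X => ∑ S ∈ (SS G X).filter (fun S => kK K X < S.card), (nk G f S : ℝ) ^ r := by
  obtain ⟨C, hC0, hC⟩ := mert
  apply sml_of (C := Real.exp ((2 : ℝ) ^ (r + 1) * C)) (a := 1) ht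
  filter_upwards [ev_eL 1, eventually_ge_atTop 3] with X hX h3
  have h1 := moment X X (SS G X) mem_pr ((2 : ℝ) ^ (r + 1)) (by positivity)
  have h2 : ∀ S ∈ SS G X, sm X S = S := by
    intro S hS
    unfold sm
    rw [Finset.filter_eq_self]
    intro p hp
    exact le_of_mem_prod (mem_pr S hS).1 (mem_pr S hS).2 hp
  have h4 : ∑ S ∈ (SS G X).filter (fun S => kK K X < S.card), (nk G f S : ℝ) ^ r ≤
      (1 / 2 : ℝ) ^ kK K X * ∑ S ∈ SS G X, ((2 : ℝ) ^ (r + 1)) ^ (sm X S).card := by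
    rw [Finset.mul_sum]
    refine le_trans (Finset.sum_le_sum
      (g := fun S => (1 / 2 : ℝ) ^ kK K X * ((2 : ℝ) ^ (r + 1)) ^ (sm X S).card) ?_)
      (Finset.sum_le_sum_of_subset_of_nonneg (Finset.filter_subset _ _)
        fun S _ _ => by positivity)
    intro S hS
    rw [Finset.mem_filter] at hS
    change _ ≤ (1 / 2 : ℝ) ^ kK K X * ((2 : ℝ) ^ (r + 1)) ^ (sm X S).card
    rw [h2 S hS.1]
    refine (nkr_le G f r S).trans ?_
    have e : ((2 : ℝ) ^ r) ^ S.card = (1 / 2) ^ S.card * (2 ^ (r + 1)) ^ S.card := by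
      rw [← mul_pow]
      congr 1
      rw [pow_succ]
      ring
    rw [e]
    refine mul_le_mul_of_nonneg_right ?_ (by positivity)
    exact pow_le_pow_of_le_one (by norm_num) (by norm_num) hS.2.le
  have h5 : (1 / 2 : ℝ) ^ kK K X ≤ Real.exp (-((2 : ℝ) ^ (r + 1) + 1) * eL X) := by
    have e : (1 / 2 : ℝ) ^ kK K X = Real.exp (kK K X * Real.log (1 / 2)) := by
      rw [mul_comm, Real.exp_mul, Real.exp_log (by norm_num), Real.rpow_natCast]
    rw [e]
    apply Real.exp_le_exp.2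
    have g1 := kK_ge K X
    have g2 : Real.log (1 / 2) ≤ -1 / 2 := by
      have := Real.log_le_sub_one_of_pos (show (0 : ℝ) < 1 / 2 by norm_num)
      linarith
    have g3 : 0 ≤ (kK K X : ℝ) := Nat.cast_nonneg _
    have g4 : 2 * ((2 : ℝ) ^ (r + 1) + 1) * eL X ≤ kK K X :=
      (mul_le_mul_of_nonneg_right hK (by linarith)).trans g1
    have g5 : (kK K X : ℝ) * Real.log (1 / 2) ≤ kK K X * (-1 / 2) :=
      mul_le_mul_of_nonneg_left g2 g3
    linarith
  have h6 : (2 : ℝ) ^ (r + 1) * ∑ p ∈ PN X, (1 : ℝ) / p ≤ 2 ^ (r + 1) * (eL X + C) :=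
    mul_le_mul_of_nonneg_left (hC X h3) (by positivity)
  calc _ ≤ (1 / 2 : ℝ) ^ kK K X * ∑ S ∈ SS G X, ((2 : ℝ) ^ (r + 1)) ^ (sm X S).card := h4
    _ ≤ Real.exp (-((2 : ℝ) ^ (r + 1) + 1) * eL X) *
        (X * Real.exp (2 ^ (r + 1) * (eL X + C))) := by
        gcongr
        exact h1.trans (by gcongr)
    _ = Real.exp ((2 : ℝ) ^ (r + 1) * C) * (X * Real.exp (-1 * eL X)) := by
        have e : -1 * eL X = -((2 : ℝ) ^ (r + 1) + 1) * eL X + 2 ^ (r + 1) * eL X := by ring
        have e2 : (2 : ℝ) ^ (r + 1) * (eL X + C) = 2 ^ (r + 1) * eL X + 2 ^ (r + 1) * C := by ring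
        rw [e, e2, Real.exp_add, Real.exp_add]
        ring

/-- sets near the boundary -/
theorem cut_sml {G : Cfg} (hO : Ok G) {t : ℝ} (ht : t < 1) (hc : CntP) (r : ℕ) {K h : ℝ}
    (hK : 0 ≤ K) (hh : r * K + 3 ≤ h) :
    Sml t fun X => ((2 : ℝ) ^ r) ^ kK K X * (((SS G X).filter fun S => S.card ≤ kK K X ∧
      X < (∏ p ∈ sm (zz X) S, p) * ∏ p ∈ la (zz X) S, XX (hH h X) (jj (hH h X) p)).card : ℝ) := by
  have hr0 : (0 : ℝ) ≤ r := Nat.cast_nonneg r
  have hrK : 0 ≤ (r : ℝ) * K := mul_nonneg hr0 hK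
  apply sml_of (C := 2 * Real.exp r) (a := 1) ht
  filter_upwards [ev_eL 1, lin_le (a := 1) (b := K + 1) (by norm_num) (by linarith),
    lin_le (a := 1) (b := r * K + 1) (by norm_num) (by linarith)] with X hX h1 h2
  rw [one_mul] at h1 h2
  have hl0 : 0 < eL X := by linarith
  have hX0 : (0 : ℝ) ≤ X := Nat.cast_nonneg _
  have hcut := hc.cut G X (zz X) (hH h X) (kK K X) hO (X_pos hl0) (hH_pos h X)
  have hp := pow_kK_le r hK hl0.le
  have hHp : (0 : ℝ) < hH h X := by exact_mod_cast hH_pos h X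
  have h3 : (X : ℝ) * kK K X / hH h X ≤ X * Real.exp ((1 - h) * eL X) := by
    rw [div_le_iff₀ hHp]
    calc (X : ℝ) * kK K X ≤ X * Real.exp (eL X) := by
          have := (kK_le' hK hX).trans h1
          gcongr
      _ = X * (Real.exp ((1 - h) * eL X) * Real.exp (h * eL X)) := by
          rw [← Real.exp_add]
          congr 2
          ring
      _ ≤ X * Real.exp ((1 - h) * eL X) * hH h X := by
          rw [mul_assoc]
          gcongr
          exact hH_ge h X
  have h4 : Real.exp (r * K * eL X) * (X * Real.exp ((1 - h) * eL X)) ≤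
      X * Real.exp (-1 * eL X) := by
    have e : Real.exp (r * K * eL X) * (X * Real.exp ((1 - h) * eL X)) =
        X * Real.exp ((r * K + 1 - h) * eL X) := by
      have e1 : (r * K + 1 - h) * eL X = r * K * eL X + (1 - h) * eL X := by ring
      rw [e1, Real.exp_add]
      ring
    rw [e]
    gcongr
    linarith
  have h5 : Real.exp (r * K * eL X) ≤ X * Real.exp (-1 * eL X) := by
    have g1 : Real.exp ((r * K + 1) * eL X) ≤ X := by
      calc Real.exp ((r * K + 1) * eL X) ≤ Real.exp (Real.exp (eL X)) := Real.exp_le_exp.2 h2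
        _ = X := by
          rw [← logX_eq hl0, Real.exp_log]
          exact_mod_cast X_pos hl0
    calc Real.exp (r * K * eL X) = Real.exp ((r * K + 1) * eL X) * Real.exp (-1 * eL X) := by
          rw [← Real.exp_add]
          congr 1
          ring
      _ ≤ _ := by gcongr
  calc _ ≤ (Real.exp r * Real.exp (r * K * eL X)) * (X * kK K X / hH h X + 1) := by
        gcongr
    _ ≤ (Real.exp r * Real.exp (r * K * eL X)) * (X * Real.exp ((1 - h) * eL X) + 1) := by
        gcongr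
    _ = Real.exp r * (Real.exp (r * K * eL X) * (X * Real.exp ((1 - h) * eL X)) +
        Real.exp (r * K * eL X)) := by ring
    _ ≤ Real.exp r * (X * Real.exp (-1 * eL X) + X * Real.exp (-1 * eL X)) := by gcongr
    _ = _ := by ring

/-- sets with two primes in one block -/
theorem coll_sml {G : Cfg} (hO : Ok G) {t : ℝ} (ht : t < 1) (hc : CntP) (r : ℕ) {K h : ℝ}
    (hK : 0 ≤ K) (hh : r * K + 3 ≤ h) :
    Sml t fun X => ((2 : ℝ) ^ r) ^ kK K X * (((SS G X).filter fun S =>
      ¬ Set.InjOn (jj (hH h X)) (la (zz X) S : Set ℕ)).card : ℝ) := by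
  apply sml_of (C := 8 * Real.exp r) (a := 1) ht
  filter_upwards [ev_eL 1] with X hX
  have hl0 : 0 < eL X := by linarith
  have hX0 : (0 : ℝ) ≤ X := Nat.cast_nonneg _
  have hcoll := hc.coll G X (zz X) (hH h X) hO (X_pos hl0) (hH_pos h X)
  have hp := pow_kK_le r hK hl0.le
  have hHp : (0 : ℝ) < hH h X := by exact_mod_cast hH_pos h X
  have h3 : 4 * (X : ℝ) * (1 + Real.log X) / hH h X ≤ 8 * (X * Real.exp ((1 - h) * eL X)) := by
    rw [div_le_iff₀ hHp]
    calc 4 * (X : ℝ) * (1 + Real.log X) ≤ 4 * X * (2 * Real.exp (eL X)) := by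
          have := one_add_log hl0
          gcongr
      _ = 8 * (X * (Real.exp ((1 - h) * eL X) * Real.exp (h * eL X))) := by
          rw [← Real.exp_add]
          have : (1 - h) * eL X + h * eL X = eL X := by ring
          rw [this]
          ring
      _ ≤ 8 * (X * (Real.exp ((1 - h) * eL X) * hH h X)) := by
          gcongr
          exact hH_ge h X
      _ = 8 * (X * Real.exp ((1 - h) * eL X)) * hH h X := by ring
  have h4 : Real.exp (r * K * eL X) * (X * Real.exp ((1 - h) * eL X)) ≤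
      X * Real.exp (-1 * eL X) := by
    have e : Real.exp (r * K * eL X) * (X * Real.exp ((1 - h) * eL X)) =
        X * Real.exp ((r * K + 1 - h) * eL X) := by
      have e1 : (r * K + 1 - h) * eL X = r * K * eL X + (1 - h) * eL X := by ring
      rw [e1, Real.exp_add]
      ring
    rw [e]
    gcongr
    linarith
  calc _ ≤ (Real.exp r * Real.exp (r * K * eL X)) * (8 * (X * Real.exp ((1 - h) * eL X))) := by
        gcongr
        exact hcoll.trans h3
    _ = 8 * Real.exp r * (Real.exp (r * K * eL X) * (X * Real.exp ((1 - h) * eL X))) := by ring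
    _ ≤ _ := by gcongr

/-! ### the weights -/

/-- a small family with the weight `B ^ (number of small primes)` -/
theorem weight_sml {G : Cfg} {t a C B : ℝ} (hB : 1 ≤ B) (hta : t < a) (ht1 : t < 1)
    (E : ℕ → Finset (Finset ℕ)) (hE : ∀ X, E X ⊆ SS G X)
    (hcard : ∀ᶠ X : ℕ in atTop, ((E X).card : ℝ) ≤ C * (X * Real.exp (-a * eL X))) :
    Sml t fun X => ∑ S ∈ E X, B ^ (sm (zz X) S).card := by
  have hB0 : 0 < B := by linarith
  set η : ℝ := (a - t) / 2 with hη
  have hη0 : 0 < η := by rw [hη]; linarith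
  obtain ⟨q, hq⟩ := exists_nat_ge (2 / η)
  have hq' : 2 ≤ η * q := by
    rw [div_le_iff₀ hη0] at hq
    linarith
  obtain ⟨C', hC'0, hC'⟩ := mert
  have s1 : Sml t fun X => Real.exp (η * eL X) * ((E X).card : ℝ) := by
    apply sml_of (C := C) (a := a - η) (by rw [hη]; linarith)
    filter_upwards [hcard] with X h1
    calc Real.exp (η * eL X) * ((E X).card : ℝ) ≤
        Real.exp (η * eL X) * (C * (X * Real.exp (-a * eL X))) := by gcongr
      _ = C * (X * Real.exp (-(a - η) * eL X)) := by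
        have e : -(a - η) * eL X = η * eL X + -a * eL X := by ring
        rw [e, Real.exp_add]
        ring
  have s2 : Sml t fun X => Real.exp (-(η * q) * eL X) *
      ∑ S ∈ SS G X, (B ^ (q + 1)) ^ (sm (zz X) S).card := by
    apply sml_of (C := Real.exp (B ^ (q + 1) * C')) (a := 1) ht1
    filter_upwards [ev_eL 2,
      eL_tendsto.eventually (log_small (3 * B ^ (q + 1)) 1 one_pos)] with X h2 h3
    have h4 := moment X (zz X) (SS G X) mem_pr (B ^ (q + 1)) (by positivity)
    have h5 := hC' (zz X) (Pool.Agent.Y495.CX.Few.zz_ge h2)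
    have h6 := loglog_zz h2
    have h7 : B ^ (q + 1) * ∑ p ∈ PN (zz X), (1 : ℝ) / p ≤ B ^ (q + 1) * C' + eL X := by
      have : B ^ (q + 1) * ∑ p ∈ PN (zz X), (1 : ℝ) / p ≤
          B ^ (q + 1) * (3 * Real.log (eL X) + C') :=
        mul_le_mul_of_nonneg_left (by linarith) (by positivity)
      linarith
    calc _ ≤ Real.exp (-2 * eL X) * (X * Real.exp (B ^ (q + 1) * C' + eL X)) := by
          refine mul_le_mul ?_ ?_ (by positivity) (Real.exp_pos _).le
          · apply Real.exp_le_exp.2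
            apply mul_le_mul_of_nonneg_right _ (by linarith)
            linarith
          · refine h4.trans ?_
            gcongr
      _ = Real.exp (B ^ (q + 1) * C') * (X * Real.exp (-1 * eL X)) := by
          have e : -1 * eL X = -2 * eL X + eL X := by ring
          rw [e, Real.exp_add, Real.exp_add]
          ring
  refine sml_mono (sml_add s1 s2) (Eventually.of_forall fun X => ?_)
  have hpt : ∀ S ∈ E X, B ^ (sm (zz X) S).card ≤ Real.exp (η * eL X) +
      Real.exp (-(η * q) * eL X) * (B ^ (q + 1)) ^ (sm (zz X) S).card := by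
    intro S _
    set s := (sm (zz X) S).card
    rcases le_total (B ^ s) (Real.exp (η * eL X)) with h | h
    · have : 0 ≤ Real.exp (-(η * q) * eL X) * (B ^ (q + 1)) ^ s := by positivity
      linarith
    · have h1 : Real.exp (η * eL X) ^ q ≤ (B ^ s) ^ q := by gcongr
      have h2 : Real.exp (η * eL X) ^ q = Real.exp (η * q * eL X) := by
        rw [← Real.exp_nat_mul]
        congr 1
        ring
      have h3 : (B ^ (q + 1)) ^ s = B ^ s * (B ^ s) ^ q := by
        rw [← pow_succ', ← pow_mul, ← pow_mul, mul_comm]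
      have h4 : Real.exp (-(η * q) * eL X) * Real.exp (η * q * eL X) = 1 := by
        rw [← Real.exp_add]
        have : -(η * q) * eL X + η * q * eL X = 0 := by ring
        rw [this, Real.exp_zero]
      rw [h2] at h1
      have h5 : B ^ s ≤ Real.exp (-(η * q) * eL X) * (B ^ (q + 1)) ^ s := by
        rw [h3]
        calc B ^ s = B ^ s * (Real.exp (-(η * q) * eL X) * Real.exp (η * q * eL X)) := by
              rw [h4, mul_one]
          _ ≤ B ^ s * (Real.exp (-(η * q) * eL X) * (B ^ s) ^ q) := by gcongr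
          _ = _ := by ring
      have := Real.exp_pos (η * eL X)
      linarith
  calc ∑ S ∈ E X, B ^ (sm (zz X) S).card ≤ ∑ S ∈ E X, (Real.exp (η * eL X) +
      Real.exp (-(η * q) * eL X) * (B ^ (q + 1)) ^ (sm (zz X) S).card) := Finset.sum_le_sum hpt
    _ = Real.exp (η * eL X) * ((E X).card : ℝ) + Real.exp (-(η * q) * eL X) *
        ∑ S ∈ E X, (B ^ (q + 1)) ^ (sm (zz X) S).card := by
        rw [Finset.sum_add_distrib, Finset.sum_const, nsmul_eq_mul, Finset.mul_sum, mul_comm]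
    _ ≤ _ := by
        refine add_le_add le_rfl (mul_le_mul_of_nonneg_left ?_ (Real.exp_pos _).le)
        exact Finset.sum_le_sum_of_subset_of_nonneg (hE X) fun _ _ _ => by positivity

/-- the exceptional sets in the boxes -/
noncomputable def EE (G : Cfg) (X : ℕ) : Finset (Finset ℕ) :=
  ((SS G X).filter fun S => kk X < S.card) ∪
  (((SS G X).filter fun S => S.card ≤ kk X ∧ ¬ Nd G (sm (zz X) S) (la (zz X) S)) ∪
  ((SS G X).filter fun S => ∀ p ∈ la (zz X) S, Hc G p))

theorem EE_sml {G : Cfg} (hO : Ok G) (hC : CntP) (hS : S_SIE) (hHal : HALP G) (hB : S_BAD)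
    (hF : S_FEW) (hM : S_MER) {B : ℝ} (hB1 : 1 ≤ B) :
    Sml (1 - dl G) fun X => ∑ S ∈ EE G X, B ^ (sm (zz X) S).card := by
  obtain ⟨dB, CB, XB, hdB, hbad⟩ := hB hS hM G hO hHal
  obtain ⟨dF, CF, XF, hdF, hfew⟩ := hF hS hM G hO
  have hdp := dl_pos hO
  have e1 : Sml (1 - dl G) fun X => ∑ S ∈ (SS G X).filter (fun S => kk X < S.card),
      B ^ (sm (zz X) S).card := by
    refine weight_sml (a := 1) (C := 2) hB1 (by linarith) (by linarith) _
      (fun X => Finset.filter_subset _ _) ?_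
    filter_upwards [ev_eL 1] with X hX
    have h0 : 0 < eL X := by linarith
    have h1 := hC.many G X (kk X) hO (X_pos h0)
    have h2 : Real.exp (2 * eL X) ≤ 2 ^ kk X := by
      have e : (2 : ℝ) ^ kk X = Real.exp (kk X * Real.log 2) := by
        rw [mul_comm, Real.exp_mul, Real.exp_log (by norm_num), Real.rpow_natCast]
      rw [e]
      apply Real.exp_le_exp.2
      have h3 := kk_ge X
      have h4 := Real.log_two_gt_d9
      nlinarith
    have hX0 : (0 : ℝ) ≤ X := Nat.cast_nonneg _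
    have h5 : (((SS G X).filter fun S => kk X < S.card).card : ℝ) * Real.exp (2 * eL X) ≤
        X * (2 * Real.exp (eL X)) := by
      calc _ ≤ (((SS G X).filter fun S => kk X < S.card).card : ℝ) * 2 ^ kk X := by gcongr
        _ ≤ X * (1 + Real.log X) := h1
        _ ≤ _ := mul_le_mul_of_nonneg_left (one_add_log h0) hX0
    have h6 : (2 : ℝ) * (X * Real.exp (-1 * eL X)) * Real.exp (2 * eL X) =
        X * (2 * Real.exp (eL X)) := by
      have e : Real.exp (-1 * eL X) * Real.exp (2 * eL X) = Real.exp (eL X) := by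
        rw [← Real.exp_add]; congr 1; ring
      calc _ = 2 * X * (Real.exp (-1 * eL X) * Real.exp (2 * eL X)) := by ring
        _ = _ := by rw [e]; ring
    rw [← h6] at h5
    exact le_of_mul_le_mul_right h5 (Real.exp_pos _)
  have e2 : Sml (1 - dl G) fun X => ∑ S ∈ (SS G X).filter
      (fun S => S.card ≤ kk X ∧ ¬ Nd G (sm (zz X) S) (la (zz X) S)),
      B ^ (sm (zz X) S).card := by
    refine weight_sml (a := 1 - dl G + dB) (C := CB) hB1 (by linarith) (by linarith) _
      (fun X => Finset.filter_subset _ _) ?_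
    filter_upwards [ev_eL 1, eventually_ge_atTop XB] with X hX h1
    have h2 := hbad X h1
    have e : (-1 + dl G - dB : ℝ) = -(1 - dl G + dB) := by ring
    rw [e, rpow_eL (by linarith)] at h2
    rw [← mul_assoc]
    exact h2
  have e3 : Sml (1 - dl G) fun X => ∑ S ∈ (SS G X).filter
      (fun S => ∀ p ∈ la (zz X) S, Hc G p),
      B ^ (sm (zz X) S).card := by
    refine weight_sml (a := 1 - dl G + dF) (C := CF) hB1 (by linarith) (by linarith) _
      (fun X => Finset.filter_subset _ _) ?_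
    filter_upwards [ev_eL 1, eventually_ge_atTop XF] with X hX h1
    have h2 := hfew X h1
    have e : (-1 + dl G - dF : ℝ) = -(1 - dl G + dF) := by ring
    rw [e, rpow_eL (by linarith)] at h2
    rw [← mul_assoc]
    exact h2
  have hun : ∀ (s u : Finset (Finset ℕ)) (g : Finset ℕ → ℝ), (∀ x, 0 ≤ g x) →
      ∑ x ∈ s ∪ u, g x ≤ ∑ x ∈ s, g x + ∑ x ∈ u, g x := by
    intro s u g hg
    have h1 := Finset.sum_union_inter (s₁ := s) (s₂ := u) (f := g)
    have h2 : 0 ≤ ∑ x ∈ s ∩ u, g x := Finset.sum_nonneg fun x _ => hg x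
    linarith
  refine sml_mono (sml_add e1 (sml_add e2 e3)) (Eventually.of_forall fun X => ?_)
  have hg : ∀ S : Finset ℕ, 0 ≤ B ^ (sm (zz X) S).card := fun S => by positivity
  unfold EE
  refine (hun _ _ _ hg).trans (add_le_add le_rfl ?_)
  exact hun _ _ _ hg

/-! ### the sum over the class -/

theorem wt_le (G : Cfg) (r X z H k : ℕ) (hz : z = zz X) :
    ∑ S ∈ RE G X z H k, wt G r (sm z S) (la z S) ≤
      ((SS G X).card : ℝ) + 2 ^ r * ∑ S ∈ EE G X, ((2 : ℝ) ^ r) ^ (sm (zz X) S).card := by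
  subst hz
  have h1 : ∀ S ∈ RE G X (zz X) H k, wt G r (sm (zz X) S) (la (zz X) S) ≤
      1 + (if S ∈ EE G X then 2 ^ r * ((2 : ℝ) ^ r) ^ (sm (zz X) S).card else 0) := by
    intro S hS
    have hSS : S ∈ SS G X := (Finset.mem_filter.1 hS).1
    unfold wt
    split_ifs with h2 h3 h3
    · have : 0 ≤ 2 ^ r * ((2 : ℝ) ^ r) ^ (sm (zz X) S).card := by positivity
      linarith
    · linarith
    · have e : ((2 : ℝ) ^ ((sm (zz X) S).card + 1)) ^ r =
          2 ^ r * ((2 : ℝ) ^ r) ^ (sm (zz X) S).card := by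
        rw [← pow_mul, ← pow_mul, ← pow_add]
        congr 1
        ring
      linarith
    · exfalso
      apply h3
      unfold EE
      rw [mem_union, mem_union, mem_filter, mem_filter, mem_filter]
      rw [not_and_or] at h2
      by_cases hk : kk X < S.card
      · exact Or.inl ⟨hSS, hk⟩
      · rcases h2 with h2 | h2
        · exact Or.inr (Or.inl ⟨hSS, not_lt.1 hk, h2⟩)
        · push Not at h2
          exact Or.inr (Or.inr ⟨hSS, h2⟩)
  refine (Finset.sum_le_sum h1).trans ?_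
  rw [Finset.sum_add_distrib, Finset.sum_const, nsmul_eq_mul, mul_one]
  refine add_le_add ?_ ?_
  · exact_mod_cast Finset.card_le_card (Finset.filter_subset _ _)
  · rw [← Finset.sum_filter, Finset.mul_sum]
    refine Finset.sum_le_sum_of_subset_of_nonneg ?_ fun _ _ _ => by positivity
    intro S hS
    exact (Finset.mem_filter.1 hS).2

theorem t_ASY : S_ASY := by
  intro hkeyc hC hS hB hF hM hCh hLo G f r hO hHal
  obtain ⟨C, hC1, hkey⟩ := hkeyc
  obtain ⟨c, X₀, hc, hlow⟩ := hLo hM hCh G hO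
  have hdp := dl_pos hO
  set K : ℝ := 2 * ((2 : ℝ) ^ (r + 1) + 1) with hK
  have hK0 : 0 ≤ K := by positivity
  set h : ℝ := r * K + 3 with hh
  have hh0 : 0 ≤ h := by positivity
  have ht : 1 - dl G < 1 := by linarith
  have s1 := many_sml (G := G) ht f r (K := K) le_rfl
  have s2 := cut_sml hO ht hC r hK0 (h := h) le_rfl
  have s3 := coll_sml hO ht hC r hK0 (h := h) le_rfl
  have s4 := main_sml hC1 G.Q r hK0 hh0 ht
  have s5 := EE_sml hO hC hS hHal hB hF hM (B := (2 : ℝ) ^ r) (one_le_pow₀ (by norm_num))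
  have hCr : 0 ≤ Cr r := by unfold Cr; positivity
  refine ⟨Cr r * (1 + 2 ^ r / c) + 4 / c, by positivity, ?_⟩
  filter_upwards [s1 1 one_pos, s2 1 one_pos, s3 1 one_pos, s4 1 one_pos, s5 1 one_pos, ev_eL 1,
    eventually_ge_atTop X₀] with X g1 g2 g3 g4 g5 hl hX0
  have hl0 : 0 < eL X := by linarith
  have hlo := hlow X hX0
  have e00 : (-1 + dl G : ℝ) = -(1 - dl G) := by ring
  rw [e00, rpow_eL hl0] at hlo
  have hXp := X_pos hl0
  have hN : (hH h X : ℝ) * Real.log X < nN h X := by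
    unfold nN
    push_cast
    exact Nat.lt_floor_add_one _
  have hmain := hkey G f r X (zz X) (hH h X) (kK K X) (nN h X) (kap C X) hO hXp (hH_pos h X)
    (zz_pos hl) (kap_nonneg hC1 X) (kap_pow hC1 hl) hN
  have hXe : X * Real.exp (-(1 - dl G) * eL X) ≤ 1 / c * ((SS G X).card : ℝ) := by
    rw [one_div, ← div_eq_inv_mul, le_div_iff₀ hc]
    linarith
  rw [one_mul] at g1 g2 g3 g4 g5
  have hwt := wt_le G r X (zz X) (hH h X) (kK K X) rfl
  have hRS : RE G X (zz X) (hH h X) (kK K X) ⊆ SS G X := Finset.filter_subset _ _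
  have hsplit : ∑ S ∈ SS G X, (nk G f S : ℝ) ^ r =
      ∑ S ∈ RE G X (zz X) (hH h X) (kK K X), (nk G f S : ℝ) ^ r +
      ∑ S ∈ SS G X \ RE G X (zz X) (hH h X) (kK K X), (nk G f S : ℝ) ^ r := by
    rw [add_comm, Finset.sum_sdiff hRS]
  have hun : ∀ (s u : Finset (Finset ℕ)) (g : Finset ℕ → ℝ), (∀ x, 0 ≤ g x) →
      ∑ x ∈ s ∪ u, g x ≤ ∑ x ∈ s, g x + ∑ x ∈ u, g x := by
    intro s u g hg
    have h1 := Finset.sum_union_inter (s₁ := s) (s₂ := u) (f := g)
    have h2 : 0 ≤ ∑ x ∈ s ∩ u, g x := Finset.sum_nonneg fun x _ => hg x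
    linarith
  have hg : ∀ S : Finset ℕ, 0 ≤ (nk G f S : ℝ) ^ r := fun S => by positivity
  set A1 := (SS G X).filter fun S => kK K X < S.card with hA1
  set A2 := (SS G X).filter fun S => S.card ≤ kK K X ∧
    X < (∏ p ∈ sm (zz X) S, p) * ∏ p ∈ la (zz X) S, XX (hH h X) (jj (hH h X) p) with hA2
  set A3' := (SS G X).filter fun S => ¬ Set.InjOn (jj (hH h X)) (la (zz X) S : Set ℕ) with hA3'
  set A3 := A3'.filter fun S => S.card ≤ kK K X with hA3
  have hsub : SS G X \ RE G X (zz X) (hH h X) (kK K X) ⊆ A1 ∪ (A2 ∪ A3) := by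
    intro S hS
    rw [Finset.mem_sdiff] at hS
    obtain ⟨h1, h2⟩ := hS
    rw [mem_union, mem_union, hA1, hA2, hA3, hA3', mem_filter, mem_filter, mem_filter, mem_filter]
    by_contra hcon
    push Not at hcon
    obtain ⟨c1, c2, c3⟩ := hcon
    apply h2
    unfold RE
    rw [mem_filter]
    have d1 := c1 h1
    refine ⟨h1, ?_, d1, c2 h1 d1⟩
    by_contra hinj
    exact absurd (c3 ⟨h1, hinj⟩) (not_lt.2 d1)
  have hout : ∑ S ∈ SS G X \ RE G X (zz X) (hH h X) (kK K X), (nk G f S : ℝ) ^ r ≤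
      ∑ S ∈ A1, (nk G f S : ℝ) ^ r +
      (((2 : ℝ) ^ r) ^ kK K X * (A2.card : ℝ) + ((2 : ℝ) ^ r) ^ kK K X * (A3'.card : ℝ)) := by
    refine (Finset.sum_le_sum_of_subset_of_nonneg hsub fun S _ _ => hg S).trans ?_
    refine (hun _ _ _ hg).trans (add_le_add le_rfl ?_)
    refine (hun _ _ _ hg).trans (add_le_add ?_ ?_)
    · calc ∑ S ∈ A2, (nk G f S : ℝ) ^ r ≤ ∑ S ∈ A2, ((2 : ℝ) ^ r) ^ kK K X :=
            Finset.sum_le_sum fun S hS => nkr_le_of f r (Finset.mem_filter.1 hS).2.1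
        _ = _ := by rw [Finset.sum_const, nsmul_eq_mul, mul_comm]
    · calc ∑ S ∈ A3, (nk G f S : ℝ) ^ r ≤ ∑ S ∈ A3, ((2 : ℝ) ^ r) ^ kK K X :=
            Finset.sum_le_sum fun S hS => nkr_le_of f r (Finset.mem_filter.1 hS).2
        _ = ((2 : ℝ) ^ r) ^ kK K X * (A3.card : ℝ) := by
            rw [Finset.sum_const, nsmul_eq_mul, mul_comm]
        _ ≤ _ := by
            gcongr
            exact Finset.filter_subset _ _
  rw [hsplit]
  have b1 : ∑ S ∈ EE G X, ((2 : ℝ) ^ r) ^ (sm (zz X) S).card ≤ 1 / c * ((SS G X).card : ℝ) :=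
    g5.trans hXe
  have b2 : ∑ S ∈ RE G X (zz X) (hH h X) (kK K X), wt G r (sm (zz X) S) (la (zz X) S) ≤
      ((SS G X).card : ℝ) + 2 ^ r * (1 / c * ((SS G X).card : ℝ)) :=
    hwt.trans (by gcongr)
  have b3 := mul_le_mul_of_nonneg_left b2 hCr
  have b4 := g1.trans hXe
  have b5 := g2.trans hXe
  have b6 := g3.trans hXe
  have b7 := g4.trans hXe
  have e : (Cr r * (1 + 2 ^ r / c) + 4 / c) * ((SS G X).card : ℝ) =
      Cr r * (((SS G X).card : ℝ) + 2 ^ r * (1 / c * ((SS G X).card : ℝ))) +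
      (1 / c * ((SS G X).card : ℝ) + 1 / c * ((SS G X).card : ℝ) +
      1 / c * ((SS G X).card : ℝ) + 1 / c * ((SS G X).card : ℝ)) := by ring
  rw [e]
  linarith

end Pool.Agent.U464.GY
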